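import Mathlib

/-!
# Right-angled Coxeter groups: walls, sides and labels (built from the reflection cocycle)

`W Γ` is the right-angled Coxeter group of the graph `Γ` (generators = vertices, of order two,
adjacent generators commute).  Chambers are the elements of `W Γ`, walls are the elements
`x * s a * x⁻¹`; `side t x` tells on which side of the wall `t` the chamber `x` lies
(`0` = the side of `1`).
-/

namespace MP8a95ee
namespace Racg

open Classical

variable {V : Type} (Γ : SimpleGraph V)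

/-- Relators of the right-angled Coxeter group of `Γ`. -/
def rels : Set (FreeGroup V) :=
  {w | (∃ a, w = FreeGroup.of a * FreeGroup.of a) ∨
    ∃ a b, Γ.Adj a b ∧ w = FreeGroup.of a * FreeGroup.of b * (FreeGroup.of a)⁻¹ *
      (FreeGroup.of b)⁻¹}

/-- The right-angled Coxeter group of `Γ`. -/
abbrev W : Type := PresentedGroup (rels Γ)

/-- The generators. -/
def s (a : V) : W Γ := PresentedGroup.of a

theorem s_mul_self (a : V) : s Γ a * s Γ a = 1 := by
  have h : (FreeGroup.of a * FreeGroup.of a : FreeGroup V) ∈ rels Γ := Or.inl ⟨a, rfl⟩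
  have := PresentedGroup.one_of_mem h
  simpa [s, PresentedGroup.of] using this

theorem s_inv (a : V) : (s Γ a)⁻¹ = s Γ a := inv_eq_of_mul_eq_one_left (s_mul_self Γ a)

theorem s_comm {a b : V} (h : Γ.Adj a b) : s Γ a * s Γ b = s Γ b * s Γ a := by
  have h1 : (FreeGroup.of a * FreeGroup.of b * (FreeGroup.of a)⁻¹ *
      (FreeGroup.of b)⁻¹ : FreeGroup V) ∈ rels Γ := Or.inr ⟨a, b, h, rfl⟩
  have h2 := PresentedGroup.one_of_mem h1
  have h3 : s Γ a * s Γ b * (s Γ a)⁻¹ * (s Γ b)⁻¹ = 1 := by
    simpa [s, PresentedGroup.of] using h2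
  have h4 : s Γ a * s Γ b * (s Γ a)⁻¹ = s Γ b := by
    rwa [mul_inv_eq_one] at h3
  rwa [mul_inv_eq_iff_eq_mul] at h4

/-- Universal property. -/
def lift {G : Type*} [Group G] (f : V → G) (h1 : ∀ a, f a * f a = 1)
    (h2 : ∀ a b, Γ.Adj a b → f a * f b = f b * f a) : W Γ →* G :=
  PresentedGroup.toGroup (f := f) (by
    rintro r (⟨a, rfl⟩ | ⟨a, b, hab, rfl⟩)
    · simpa using h1 a
    · simp [h2 a b hab])

@[simp] theorem lift_s {G : Type*} [Group G] (f : V → G) (h1 : ∀ a, f a * f a = 1)
    (h2 : ∀ a b, Γ.Adj a b → f a * f b = f b * f a) (a : V) : lift Γ f h1 h2 (s Γ a) = f a :=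
  PresentedGroup.toGroup.of _

/-- Word product. -/
def wp (l : List V) : W Γ := (l.map (s Γ)).prod

@[simp] theorem wp_nil : wp Γ [] = 1 := rfl
@[simp] theorem wp_cons (a : V) (l : List V) : wp Γ (a :: l) = s Γ a * wp Γ l := by simp [wp]
@[simp] theorem wp_append (l l' : List V) : wp Γ (l ++ l') = wp Γ l * wp Γ l' := by simp [wp]

theorem exists_word (x : W Γ) : ∃ l, wp Γ l = x := by
  have h : x ∈ Subgroup.closure (Set.range (PresentedGroup.of : V → PresentedGroup (rels Γ))) := by
    rw [PresentedGroup.closure_range_of]; trivial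
  induction h using Subgroup.closure_induction with
  | mem x hx => obtain ⟨a, rfl⟩ := hx; exact ⟨[a], by simp [s]⟩
  | one => exact ⟨[], rfl⟩
  | mul x y _ _ hx hy =>
    obtain ⟨l, rfl⟩ := hx; obtain ⟨l', rfl⟩ := hy; exact ⟨l ++ l', by simp⟩
  | inv x _ hx =>
    obtain ⟨l, rfl⟩ := hx
    refine ⟨l.reverse, ?_⟩
    induction l with
    | nil => simp
    | cons a l ih => simp [ih, s_inv]

/-! ### The reflection cocycle -/

/-- The action of a generator on (walls) x signs. -/
noncomputable def flip (a : V) : Equiv.Perm (W Γ × ZMod 2) :=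
  Function.Involutive.toPerm
    (fun p => (s Γ a * p.1 * s Γ a, p.2 + if p.1 = s Γ a then 1 else 0)) (by
    rintro ⟨t, e⟩
    have h1 : s Γ a * (s Γ a * t * s Γ a) * s Γ a = t := by
      have : s Γ a * (s Γ a * t * s Γ a) * s Γ a = (s Γ a * s Γ a) * t * (s Γ a * s Γ a) := by
        group
      rw [this, s_mul_self]; simp
    have h2 : s Γ a * t * s Γ a = s Γ a ↔ t = s Γ a := by
      constructor
      · intro h
        have h3 : s Γ a * (s Γ a * t * s Γ a) * s Γ a = s Γ a * s Γ a * s Γ a := by rw [h]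
        rw [h1] at h3
        rw [h3, s_mul_self]; simp
      · rintro rfl; rw [s_mul_self]; simp
    by_cases ht : t = s Γ a
    · have h4 : (1 : ZMod 2) + 1 = 0 := by decide
      simp only [Prod.mk.injEq]
      refine ⟨h1, ?_⟩
      rw [if_pos ht, if_pos (h2.2 ht), add_assoc, h4, add_zero]
    · simp only [Prod.mk.injEq]
      refine ⟨h1, ?_⟩
      rw [if_neg ht, if_neg (fun h => ht (h2.1 h))]; simp)

theorem flip_apply (a : V) (t : W Γ) (e : ZMod 2) :
    flip Γ a (t, e) = (s Γ a * t * s Γ a, e + if t = s Γ a then 1 else 0) := rfl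

theorem flip_flip (a : V) : flip Γ a * flip Γ a = 1 := by
  ext p : 1
  exact Function.Involutive.toPerm_involutive _ p

theorem conj_eq_iff {a b : V} (h : Γ.Adj a b) (t : W Γ) :
    s Γ b * t * s Γ b = s Γ a ↔ t = s Γ a := by
  constructor
  · intro h1
    have h2 : t = s Γ b * s Γ a * s Γ b := by
      rw [← h1]
      have : s Γ b * (s Γ b * t * s Γ b) * s Γ b = (s Γ b * s Γ b) * t * (s Γ b * s Γ b) := by
        group
      rw [this, s_mul_self]; simp
    rw [h2, ← s_comm Γ h, mul_assoc, s_mul_self, mul_one]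
  · rintro rfl
    rw [← s_comm Γ h, mul_assoc, s_mul_self, mul_one]

theorem flip_comm {a b : V} (h : Γ.Adj a b) : flip Γ a * flip Γ b = flip Γ b * flip Γ a := by
  ext p : 1
  obtain ⟨t, e⟩ := p
  simp only [Equiv.Perm.mul_apply, flip_apply, Prod.mk.injEq]
  constructor
  · have h1 : s Γ a * (s Γ b * t * s Γ b) * s Γ a = (s Γ a * s Γ b) * t * (s Γ b * s Γ a) := by
      simp only [mul_assoc]
    have h2 : s Γ b * (s Γ a * t * s Γ a) * s Γ b = (s Γ b * s Γ a) * t * (s Γ a * s Γ b) := by
      simp only [mul_assoc]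
    rw [h1, h2, s_comm Γ h]
  · rw [if_congr (conj_eq_iff Γ h t) rfl rfl, if_congr (conj_eq_iff Γ h.symm t) rfl rfl]
    ring

/-- The sign representation on walls. -/
noncomputable def Phi : W Γ →* Equiv.Perm (W Γ × ZMod 2) :=
  lift Γ (flip Γ) (flip_flip Γ) (fun _ _ h => flip_comm Γ h)

theorem Phi_apply (x t : W Γ) (e : ZMod 2) :
    Phi Γ x (t, e) = (x * t * x⁻¹, e + (Phi Γ x (t, 0)).2) := by
  obtain ⟨l, rfl⟩ := exists_word Γ x
  induction l generalizing t e with
  | nil => simp
  | cons a l ih =>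
    have h1 : ∀ e, Phi Γ (wp Γ (a :: l)) (t, e) = flip Γ a (Phi Γ (wp Γ l) (t, e)) := by
      intro e
      rw [wp_cons, map_mul, Equiv.Perm.mul_apply]
      simp [Phi]
    rw [h1, h1, ih t e, ih t 0, flip_apply, flip_apply]
    simp only [Prod.mk.injEq]
    constructor
    · rw [wp_cons, mul_inv_rev, s_inv]; group
    · ring

/-- `side t x = 1` iff the wall `t` separates the chambers `1` and `x`. -/
noncomputable def side (t x : W Γ) : ZMod 2 := (Phi Γ x⁻¹ (t, 0)).2

@[simp] theorem side_one (t : W Γ) : side Γ t 1 = 0 := by simp [side]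

theorem side_mul (t x y : W Γ) : side Γ t (x * y) = side Γ t x + side Γ (x⁻¹ * t * x) y := by
  unfold side
  rw [mul_inv_rev, map_mul, Equiv.Perm.mul_apply, Phi_apply Γ x⁻¹ t 0, Phi_apply Γ y⁻¹]
  simp

theorem side_s (t : W Γ) (a : V) : side Γ t (s Γ a) = if t = s Γ a then 1 else 0 := by
  unfold side
  rw [s_inv]
  simp [Phi, flip_apply]

theorem side_mul_s (t x : W Γ) (a : V) :
    side Γ t (x * s Γ a) = side Γ t x + if t = x * s Γ a * x⁻¹ then 1 else 0 := by
  rw [side_mul, side_s]
  congr 1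
  refine if_congr ?_ rfl rfl
  constructor
  · intro h; rw [← h]; group
  · intro h; rw [h]; group

theorem side_s_mul (t x : W Γ) (a : V) :
    side Γ t (s Γ a * x) = (if t = s Γ a then 1 else 0) + side Γ (s Γ a * t * s Γ a) x := by
  rw [side_mul, side_s, s_inv]

/-- The walls move with the chambers. -/
theorem side_trans (g t x y : W Γ) :
    side Γ (g * t * g⁻¹) (g * x) - side Γ (g * t * g⁻¹) (g * y) = side Γ t x - side Γ t y := by
  rw [side_mul, side_mul]
  have : g⁻¹ * (g * t * g⁻¹) * g = t := by group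
  rw [this]; ring

/-! ### Labels -/

/-- The label homomorphisms. -/
noncomputable def lab (b : V) : W Γ →* ℤˣ :=
  lift Γ (fun a => if a = b then -1 else 1) (by intro a; split_ifs <;> simp)
    (by intro a b _; exact mul_comm _ _)

theorem lab_s (b a : V) : lab Γ b (s Γ a) = if a = b then -1 else 1 := by simp [lab]

theorem lab_conj (b a : V) (x : W Γ) : lab Γ b (x * s Γ a * x⁻¹) = if a = b then -1 else 1 := by
  rw [map_mul, map_mul, lab_s, mul_right_comm, ← map_mul]; simp

theorem s_injective : Function.Injective (s Γ) := by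
  intro a b h
  by_contra hab
  have h1 := lab_s Γ b a
  rw [h, lab_s, if_pos rfl, if_neg hab] at h1
  exact absurd h1 (by decide)

theorem label_eq {a b : V} {x y : W Γ} (h : x * s Γ a * x⁻¹ = y * s Γ b * y⁻¹) : a = b := by
  by_contra hab
  have h1 := lab_conj Γ b a x
  rw [h, lab_conj, if_pos rfl, if_neg hab] at h1
  exact absurd h1 (by decide)

/-- The sign character. -/
noncomputable def sgn : W Γ →* ℤˣ :=
  lift Γ (fun _ => -1) (by simp) (by simp)

@[simp] theorem sgn_s (a : V) : sgn Γ (s Γ a) = -1 := by simp [sgn]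

end Racg
end MP8a95ee
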