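import Pool.Agent.Work.MP_8a95ee_gt.Racg.Basic

/-!
Statements of the wall geometry of right-angled Coxeter groups. STUB: do not import in a proof.
`t` separates `x` and `y` iff `side Γ t x ≠ side Γ t y`.
-/

namespace MP8a95ee
namespace Racg
namespace Stub

variable {V : Type} (Γ : SimpleGraph V)

/-- The wall with label `a` adjacent to the chamber `x`. -/
def wall (x : W Γ) (a : V) : W Γ := x * s Γ a * x⁻¹

/-- The first letters of `x`. -/
def In (x : W Γ) : Set V := {a | side Γ (s Γ a) x ≠ 0}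

theorem wall_mul_s {x : W Γ} {a : V} : wall Γ (x * s Γ a) a = wall Γ x a := by sorry

/-- Only the wall `wall x a` separates `x` and `x * s a`. -/
theorem side_mul_s' (t x : W Γ) (a : V) : side Γ t (x * s Γ a) ≠ side Γ t x ↔ t = wall Γ x a := by
  sorry

theorem mem_In_iff (x v : W Γ) (a : V) :
    a ∈ In Γ (x⁻¹ * v) ↔ side Γ (wall Γ x a) x ≠ side Γ (wall Γ x a) v := by sorry

/-- Separating walls are walls. -/
theorem exists_wall_of_sep {t x y : W Γ} (h : side Γ t x ≠ side Γ t y) :
    ∃ u a, t = wall Γ u a := by sorry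

theorem sep_finite (x y : W Γ) : {t | side Γ t x ≠ side Γ t y}.Finite := by sorry

theorem eq_of_side {x y : W Γ} (h : ∀ t, side Γ t x = side Γ t y) : x = y := by sorry

/-- First letter. -/
theorem exists_first {x y : W Γ} (h : x ≠ y) :
    ∃ a, side Γ (wall Γ x a) x ≠ side Γ (wall Γ x a) y := by sorry

/-- The first letters form a clique. -/
theorem clique {x v : W Γ} {a b : V} (hab : a ≠ b)
    (ha : side Γ (wall Γ x a) x ≠ side Γ (wall Γ x a) v)
    (hb : side Γ (wall Γ x b) x ≠ side Γ (wall Γ x b) v) : Γ.Adj a b := by sorry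

/-- Centraliser lemma. -/
theorem centralizer {x y : W Γ} {a : V} (h : wall Γ x a = wall Γ y a)
    (hs : side Γ (wall Γ x a) x = side Γ (wall Γ x a) y)
    {u : W Γ} {b : V} (hb : side Γ (wall Γ u b) x ≠ side Γ (wall Γ u b) y) : Γ.Adj a b := by sorry

/-- Walls with equal or non-adjacent labels do not cross. -/
theorem noncross {u v : W Γ} {a b : V} (hne : wall Γ u a ≠ wall Γ v b) (hab : ¬ Γ.Adj a b) :
    ¬ ∀ e e' : ZMod 2, ∃ x, side Γ (wall Γ u a) x = e ∧ side Γ (wall Γ v b) x = e' := by sorry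

/-- Crossing walls commute. -/
theorem cross_comm {t t' : W Γ} (h : ∀ e e' : ZMod 2, ∃ x, side Γ t x = e ∧ side Γ t' x = e') :
    t * t' = t' * t := by sorry

/-- Hull lemma. -/
theorem hull {ι : Type} {v : ι → W Γ} {x t : W Γ} [Nonempty ι]
    (h : ∀ i, side Γ t x ≠ side Γ t (v i)) :
    ∃ a, ∀ i, side Γ (wall Γ x a) x ≠ side Γ (wall Γ x a) (v i) := by sorry

/-- If the labels of the walls separating `x` and `y` which are not in `A` are adjacent to all of
`A`, and some label is in `A`, then some wall adjacent to `x` with label in `A` separates. -/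
theorem A_letter {x y : W Γ} {A : Set V}
    (hA : ∀ u b, side Γ (wall Γ u b) x ≠ side Γ (wall Γ u b) y → b ∉ A → ∀ a ∈ A, Γ.Adj a b)
    (hex : ∃ u, ∃ a ∈ A, side Γ (wall Γ u a) x ≠ side Γ (wall Γ u a) y) :
    ∃ a ∈ A, side Γ (wall Γ x a) x ≠ side Γ (wall Γ x a) y := by sorry

/-- Evaluation: parabolic decomposition with respect to a clique. -/
theorem clique_coset {c : Finset V} (hc : (c : Set V).Pairwise Γ.Adj) (y : W Γ)
    (hy : y ∉ Subgroup.closure (s Γ '' (c : Set V))) :
    ∃ a, ∀ b ∈ Subgroup.closure (s Γ '' (c : Set V)), side Γ (s Γ a) (y * b) ≠ 0 := by sorry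

/-- Inside a finite parabolic: `In` of a product of distinct commuting generators. -/
theorem In_prod {c : Finset V} (hc : (c : Set V).Pairwise Γ.Adj) (l : List V) (hl : l.Nodup)
    (hlc : ∀ a ∈ l, a ∈ c) : In Γ (wp Γ l) = {a | a ∈ l} := by sorry

end Stub
end Racg
end MP8a95ee
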